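import Pool.Agent.helper91.HZ.Spec

/-!
# Row hz:PSM (MP_2e0e07_nt): `psi` and homomorphisms of rings
-/

namespace Pool.Agent.HZ

open Matrix Polynomial Pool.Agent.GO Pool.Agent.AR Pool.Agent.RG MeasureTheory NumberField

theorem PSM_PW {R R' m : Type} [CommRing R] [Inv R] [CommRing R'] [Inv R'] [Fintype m]
    [DecidableEq m] (f : R →+* R') (n N : ℕ) (A : Matrix m m R) (l : Fin N)
    (hf : ∀ i < n, f (cf R i) = cf R' i) :
    (MvPolynomial.map f).mapMatrix (PW n A (MvPolynomial.X l : MvPolynomial (Fin N) R)) =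
      PW n (A.map f) (MvPolynomial.X l : MvPolynomial (Fin N) R') := by
  unfold PW
  rw [map_sum]
  refine Finset.sum_congr rfl fun i hi => ?_
  have h1 : (A.map f - 1) ^ i = ((A - 1) ^ i).map f := by
    have h2 : f.mapMatrix ((A - 1) ^ i) = (f.mapMatrix A - 1) ^ i := by
      rw [map_pow, map_sub, map_one]
    exact h2.symm
  rw [h1]
  ext1 a b
  simp only [RingHom.mapMatrix_apply, Matrix.map_apply, Matrix.smul_apply, smul_eq_mul, map_mul,
    map_prod, map_sub, map_natCast, MvPolynomial.algebraMap_eq, MvPolynomial.map_C,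
    MvPolynomial.map_X, hf i (Finset.mem_range.1 hi)]

theorem PSM : PSM_stmt := by
  intro R R' m _ _ _ _ _ _ f n N A hf
  have h1 : (psi n A).map (MvPolynomial.map f) = (MvPolynomial.map f).mapMatrix (psi n A) := rfl
  rw [h1]
  unfold psi
  rw [map_list_prod, List.map_ofFn]
  congr 1
  congr 1
  funext l
  exact PSM_PW f n N (A l) l hf

end Pool.Agent.HZ
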